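import Pool.Agent.Helper418_EC.Base

/-!
# Homomorphisms into a McDuff factor that never generate a factor: definitions
-/

set_option autoImplicit false

open scoped InnerProductSpace

namespace Helper418F

open Pool.Agent.Helper418_EC

/-- all conjugacy classes except that of `1` are infinite -/
def ICC (G : Type) [Group G] : Prop :=
  ∀ g : G, g ≠ 1 → {x : G | ∃ h, x = h * g * h⁻¹}.Infinite

/-- the group of polynomials over the field with 11 elements, written multiplicatively -/
abbrev ZP : Type := Multiplicative (Polynomial (ZMod 11))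

/-- a primitive 11-th root of unity -/
noncomputable def om : ℂ := Complex.exp (2 * Real.pi * Complex.I / 11)

/-- the element of `ZP` with coefficients `f` -/
noncomputable def zf {n : ℕ} (f : Fin n → ZMod 11) : ZP :=
  Multiplicative.ofAdd (∑ k : Fin n, Polynomial.monomial (k : ℕ) (f k))

section
variable {H : Type} [NormedAddCommGroup H] [InnerProductSpace ℂ H] [CompleteSpace H]

/-- The spectral projection of the representation `u` of `ZP` for the first `n` values of `x`. -/
noncomputable def eop (u : ZP → (H →L[ℂ] H)) (n : ℕ) (x : ℕ → ZMod 11) : H →L[ℂ] H :=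
  ((11 : ℂ) ^ n)⁻¹ • ∑ f : Fin n → ZMod 11, (om ^ (∑ k : Fin n, (-(f k * x k) : ZMod 11).val)) • u (zf f)

/-- The data of the left and right regular representations on `ℓ²(Γ)`. -/
structure Reg {Γ : Type} [Group Γ] (L R : Γ → (H →L[ℂ] H)) (ξ : H) : Prop where
  L_one : L 1 = 1
  L_mul : ∀ g h, L (g * h) = L g * L h
  L_star : ∀ g, star (L g) = L g⁻¹
  R_one : R 1 = 1
  R_mul : ∀ g h, R (g * h) = R g * R h
  R_star : ∀ g, star (R g) = R g⁻¹
  LR : ∀ g h, L g * R h = R h * L g
  vec : ∀ g, L g ξ = R g⁻¹ ξ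
  orth_one : ⟪ξ, ξ⟫_ℂ = 1
  orth : ∀ g, g ≠ 1 → ⟪ξ, L g ξ⟫_ℂ = 0
  dense : (Submodule.span ℂ (Set.range fun g => L g ξ)).topologicalClosure = ⊤

/-- The von Neumann algebra of all operators which commute with the operators in `S` and their
adjoints. -/
noncomputable def cmt (S : Set (H →L[ℂ] H)) : VonNeumannAlgebra H where
  toStarSubalgebra := StarSubalgebra.centralizer ℂ S
  centralizer_centralizer' := by
    have h : ((StarSubalgebra.centralizer ℂ S : StarSubalgebra ℂ (H →L[ℂ] H)) : Set (H →L[ℂ] H)) =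
        Set.centralizer (S ∪ star S) := rfl
    change Set.centralizer (Set.centralizer ((StarSubalgebra.centralizer ℂ S :
      StarSubalgebra ℂ (H →L[ℂ] H)) : Set (H →L[ℂ] H))) = _
    rw [h, Set.centralizer_centralizer_centralizer]
    rfl

/-- `u` is a unitary representation of `G` with values in the corner `u 1` of `N`. -/
structure Rp {G : Type} [Group G] (N : VonNeumannAlgebra H) (u : G → (H →L[ℂ] H)) : Prop where
  mem : ∀ g, u g ∈ N
  mul : ∀ g h, u (g * h) = u g * u h
  st : ∀ g, star (u g) = u g⁻¹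

/-- the compression of `y` to the closed subspace `K` -/
noncomputable def cpr (K : Submodule ℂ H) [K.HasOrthogonalProjection] (y : H →L[ℂ] H) : K →L[ℂ] K :=
  K.orthogonalProjectionOnto ∘L y ∘L K.subtypeL

/-- the extension by zero of an operator on `K` -/
noncomputable def ext (K : Submodule ℂ H) [K.HasOrthogonalProjection] (x : K →L[ℂ] K) : H →L[ℂ] H :=
  K.subtypeL ∘L x ∘L K.orthogonalProjectionOnto

/-- `M` has non-commuting central sequences (for a separable II₁ factor this is equivalent to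
`M ≅ M ⊗ R`, by McDuff's theorem) -/
def McDuff (M : VonNeumannAlgebra H) (ξ : H) : Prop :=
  ∃ x y : ℕ → (H →L[ℂ] H), (∀ n, x n ∈ M ∧ ‖x n‖ ≤ 1) ∧ (∀ n, y n ∈ M ∧ ‖y n‖ ≤ 1) ∧
    (∀ a ∈ M, Filter.Tendsto (fun n => ‖(x n * a - a * x n) ξ‖) Filter.atTop (nhds 0)) ∧
    (∀ a ∈ M, Filter.Tendsto (fun n => ‖(y n * a - a * y n) ξ‖) Filter.atTop (nhds 0)) ∧
    ∃ c : ℝ, 0 < c ∧ ∀ n, c ≤ ‖(x n * y n - y n * x n) ξ‖

end

end Helper418F
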